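import Mathlib

namespace Pool.Agent.H.MP_dad4ef_an

open Filter Topology Metric Set Real Complex MeasureTheory
open scoped ComplexConjugate

noncomputable def co (f : ℂ → ℂ) (n : ℕ) : ℂ := iteratedDeriv n f 0 / (n.factorial : ℂ)

variable {r : ℝ} {f g : ℂ → ℂ}

lemma co_int (h0 : 0 < r) (h1 : r < 1) (hf : DifferentiableOn ℂ f (ball 0 1)) (n : ℕ) :
    ∮ z in C(0, r), f z / z ^ (n + 1) = 2 * π * I * co f n := by
  have := (hf.mono (closedBall_subset_ball h1)).circleIntegral_one_div_sub_center_pow_smul h0 n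
  simp only [sub_zero, smul_eq_mul, one_div_mul_eq_div] at this
  rw [this, co]
  ring

lemma co_four (h0 : 0 < r) (h1 : r < 1) (hf : DifferentiableOn ℂ f (ball 0 1)) (n : ℕ) :
    fourierCoeffOn two_pi_pos (fun t => f (circleMap 0 r t)) n = co f n * r ^ n := by
  have h := co_int h0 h1 hf n
  have hr : (r : ℂ) ≠ 0 := by exact_mod_cast h0.ne'
  have hp : (π : ℂ) ≠ 0 := by exact_mod_cast pi_ne_zero
  rw [circleIntegral] at h
  rw [fourierCoeffOn_eq_integral, intervalIntegral.integral_congr (g := fun t =>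
    (r ^ n / I : ℂ) * (deriv (circleMap 0 r) t • (f (circleMap 0 r t) / circleMap 0 r t ^ (n + 1))))
    fun t _ => ?_, intervalIntegral.integral_const_mul, h]
  · simp only [real_smul]
    push_cast
    field_simp
    ring
  · beta_reduce
    rw [fourier_coe_apply, deriv_circleMap, circleMap, zero_add, smul_eq_mul, smul_eq_mul,
      show (2 * π * I * ((-(n : ℤ) : ℤ) : ℂ) * t / ((2 * π - 0 : ℝ) : ℂ)) = -(n * (t * I)) by
        push_cast; field_simp; ring, Complex.exp_neg, Complex.exp_nat_mul, mul_pow]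
    have := Complex.exp_ne_zero (t * I)
    field_simp
    ring

lemma bes (h0 : 0 < r) (h1 : r < 1) (hf : DifferentiableOn ℂ f (ball 0 1)) (N : ℕ) :
    ∑ n ∈ Finset.range N, ‖co f n‖ ^ 2 * r ^ (2 * n) ≤
      (2 * π)⁻¹ * ∫ t in (0 : ℝ)..2 * π, ‖f (circleMap 0 r t)‖ ^ 2 := by
  have hc : Continuous fun t => f (circleMap 0 r t) :=
    hf.continuousOn.comp_continuous (continuous_circleMap 0 r) fun t => by
      simpa [abs_of_pos h0] using h1
  have h := hasSum_sq_fourierCoeffOn two_pi_pos (f := fun t => f (circleMap 0 r t))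
    ((MeasureTheory.memLp_two_iff_integrable_sq_norm hc.aestronglyMeasurable).2
      (hc.norm.pow 2).integrableOn_Ioc)
  rw [sub_zero, smul_eq_mul] at h
  refine le_trans (le_of_eq ?_) (sum_le_hasSum ((Finset.range N).map Nat.castEmbedding)
    (fun _ _ => sq_nonneg _) h)
  rw [Finset.sum_map]
  refine Finset.sum_congr rfl fun n _ => ?_
  rw [Nat.castEmbedding_apply, co_four h0 h1 hf, norm_mul, norm_pow, norm_real, norm_eq_abs,
    abs_of_pos h0, mul_pow, ← pow_mul, mul_comm n]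

lemma sq_sum (hf : DifferentiableOn ℂ f (ball 0 1)) {M : ℝ} (h : ∀ z ∈ ball 0 1, ‖f z‖ ≤ M) :
    Summable fun n => ‖co f n‖ ^ 2 := by
  refine summable_of_sum_range_le (c := (2 * π)⁻¹ * (M ^ 2 * |2 * π - 0|)) (fun _ => sq_nonneg _)
    fun N => ?_
  have h1 : Tendsto (fun r : ℝ => ∑ n ∈ Finset.range N, ‖co f n‖ ^ 2 * r ^ (2 * n)) (𝓝[<] 1)
      (𝓝 (∑ n ∈ Finset.range N, ‖co f n‖ ^ 2 * 1 ^ (2 * n))) :=
    (Continuous.tendsto (by fun_prop) 1).mono_left nhdsWithin_le_nhds
  simp only [one_pow, mul_one] at h1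
  refine le_of_tendsto h1 ?_
  filter_upwards [Ioo_mem_nhdsLT (show (0 : ℝ) < 1 by norm_num)] with r hr
  refine (bes hr.1 hr.2 hf N).trans (mul_le_mul_of_nonneg_left ((Real.le_norm_self _).trans
    (intervalIntegral.norm_integral_le_of_norm_le_const fun t _ => ?_)) (by positivity))
  rw [norm_pow, norm_norm]
  exact pow_le_pow_left₀ (norm_nonneg _) (h _ (by simpa [abs_of_pos hr.1] using hr.2)) 2

lemma hcongr {ι : Type} {x y : ι → ℂ} {s : ℂ} (h : HasSum x s) (e : ∀ n, x n = y n) :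
    HasSum y s := funext e ▸ h

lemma co_sum (hf : DifferentiableOn ℂ f (ball 0 1)) {w : ℂ} (hw : ‖w‖ < 1) :
    HasSum (fun n => co f n * w ^ n) (f w) := by
  have := Complex.hasSum_taylorSeries_on_ball hf (mem_ball_zero_iff.2 hw)
  refine hcongr this fun n => ?_
  simp only [co, sub_zero, smul_eq_mul]
  ring

lemma co_deriv (n : ℕ) : co (deriv f) n = (n + 1) * co f (n + 1) := by
  rw [co, co, iteratedDeriv_succ', Nat.factorial_succ]
  have : (n + 1 : ℂ) ≠ 0 := by exact_mod_cast n.succ_ne_zero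
  push_cast
  field_simp

theorem orth (k l : ℕ) : ∫ θ in (0 : ℝ)..2 * π, cexp (θ * I) ^ k * conj (cexp (θ * I) ^ l) =
    if k = l then (2 * π : ℂ) else 0 := by
  have e : ∀ θ : ℝ, cexp (θ * I) ^ k * conj (cexp (θ * I) ^ l) =
      cexp (((k - l : ℤ) * I) * θ) := by
    intro θ
    rw [map_pow, ← Complex.exp_conj, ← Complex.exp_nat_mul, ← Complex.exp_nat_mul,
      ← Complex.exp_add]
    congr 1; simp; ring
  simp_rw [e]
  split_ifs with h
  · simp [h]
  · rw [integral_exp_mul_complex (mul_ne_zero (Int.cast_ne_zero.2 (by omega)) I_ne_zero)]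
    have := Complex.exp_int_mul_two_pi_mul_I (k - l)
    rw [show ((k - l : ℤ) : ℂ) * I * ((2 * π : ℝ) : ℂ) = ((k - l : ℤ) : ℂ) * (2 * π * I) by
      push_cast; ring, this]
    simp

theorem parseval (a : ℕ → ℂ) (N : ℕ) :
    ∫ θ in (0 : ℝ)..2 * π, ‖∑ k ∈ Finset.range N, a k * cexp (θ * I) ^ k‖ ^ 2 =
      2 * π * ∑ k ∈ Finset.range N, normSq (a k) := by
  apply Complex.ofReal_injective
  rw [← intervalIntegral.integral_ofReal]
  have e : ∀ θ : ℝ, ((‖∑ k ∈ Finset.range N, a k * cexp (θ * I) ^ k‖ ^ 2 : ℝ) : ℂ) =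
      ∑ k ∈ Finset.range N, ∑ l ∈ Finset.range N, a k * conj (a l) *
        (cexp (θ * I) ^ k * conj (cexp (θ * I) ^ l)) := by
    intro θ
    rw [Complex.ofReal_pow, ← Complex.mul_conj', map_sum, Finset.sum_mul_sum]
    exact Finset.sum_congr rfl fun k _ => Finset.sum_congr rfl fun l _ => by rw [map_mul]; ring
  simp_rw [e]
  rw [intervalIntegral.integral_finsetSum fun k _ => Continuous.intervalIntegrable (by fun_prop) _ _]
  push_cast
  rw [Finset.mul_sum]
  refine Finset.sum_congr rfl fun k hk => ?_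
  rw [intervalIntegral.integral_finsetSum fun k _ => Continuous.intervalIntegrable (by fun_prop) _ _]
  simp_rw [intervalIntegral.integral_const_mul, orth]
  simp [hk, Complex.mul_conj, mul_comm]

lemma l2up {d : ℕ → ℂ} {s : ℝ} (hd : ∀ w, ‖w‖ < 1 → HasSum (fun n => d n * w ^ n) (g w))
    (hs : ∀ N, ∑ n ∈ Finset.range N, ‖d n‖ ^ 2 ≤ s) (h0 : 0 < r) (h1 : r < 1) :
    ∫ θ in (0 : ℝ)..2 * π, ‖g (circleMap 0 r θ)‖ ^ 2 ≤ 2 * π * s := by
  have sm := (hd r (by simpa [abs_of_pos h0] using h1)).summable.norm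
  have t := intervalIntegral.tendsto_integral_filter_of_dominated_convergence (μ := volume)
    (a := 0) (b := 2 * π) (l := atTop) (F := fun N (θ : ℝ) =>
      ‖∑ k ∈ Finset.range N, d k * r ^ k * cexp (θ * I) ^ k‖ ^ 2)
    (f := fun θ => ‖g (circleMap 0 r θ)‖ ^ 2) (fun _ => (∑' n, ‖d n * r ^ n‖) ^ 2)
    (.of_forall fun N => Continuous.aestronglyMeasurable (by fun_prop))
    (.of_forall fun N => .of_forall fun θ _ => by
      rw [norm_pow, norm_norm]
      refine pow_le_pow_left₀ (norm_nonneg _) ((norm_sum_le _ _).trans (le_trans (le_of_eq ?_)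
        (sm.sum_le_tsum (Finset.range N) fun _ _ => norm_nonneg _))) 2
      exact Finset.sum_congr rfl fun k _ => by simp)
    intervalIntegrable_const (.of_forall fun θ _ => by
      have := (hd (circleMap 0 r θ) (by simpa [abs_of_pos h0] using h1)).tendsto_sum_nat
      simp only [circleMap, zero_add, mul_pow, ← mul_assoc] at this ⊢
      exact this.norm.pow 2)
  refine le_of_tendsto' t fun N => ?_
  rw [parseval]
  refine mul_le_mul_of_nonneg_left ((Finset.sum_le_sum fun k _ => ?_).trans (hs N)) (by positivity)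
  rw [← Complex.sq_norm, norm_mul, norm_pow, norm_real, Real.norm_of_nonneg h0.le]
  exact pow_le_pow_left₀ (by positivity) (mul_le_of_le_one_right (norm_nonneg _)
    (pow_le_one₀ h0.le h1.le)) 2

lemma grp {E : Type} [NormedAddCommGroup E] {x : ℕ × ℕ → E} {s : E} (h : HasSum x s) :
    HasSum (fun n => ∑ k ∈ Finset.HasAntidiagonal.antidiagonal n, x k) s :=
  (Finset.HasAntidiagonal.sigmaAntidiagonalEquivProd.hasSum_iff.2 h).sigma fun n => by
    rw [← Finset.sum_coe_sort]
    exact hasSum_fintype _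

lemma ungrp {x : ℕ × ℕ → ℝ} {y : ℕ → ℝ} (x0 : ∀ k, 0 ≤ x k) (hy : Summable y)
    (h : ∀ n, ∑ k ∈ Finset.HasAntidiagonal.antidiagonal n, x k ≤ y n) : Summable x := by
  rw [← Finset.HasAntidiagonal.sigmaAntidiagonalEquivProd.summable_iff]
  refine (summable_sigma_of_nonneg fun _ => x0 _).2 ⟨fun n => .of_finite, hy.of_nonneg_of_le (fun n => tsum_nonneg fun _ => x0 _)
    fun n => le_trans (le_of_eq ?_) (h n)⟩
  rw [tsum_fintype]
  exact Finset.sum_coe_sort _ x

end Pool.Agent.H.MP_dad4ef_an
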