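import Mathlib
import Pool.Agent.H.MP_dad4ef_an.A

namespace Pool.Agent.H.MP_dad4ef_an

open Filter Topology Metric Set Real Complex MeasureTheory Finset.HasAntidiagonal

noncomputable def Φ (w : ℂ) : ℂ := 2 * Complex.log (1 - w) - (1 + w) / (1 - w)

noncomputable def S (w : ℂ) : ℂ := cexp (-((1 + w) / (1 - w)))

noncomputable def F (w : ℂ) : ℂ := cexp (Φ w)

lemma n1 {w : ℂ} (h : w.re < 1) : 1 - w ≠ 0 := fun e => by
  have := congrArg Complex.re e
  simp at this
  linarith

lemma Φa {w : ℂ} (h : w.re < 1) : AnalyticAt ℂ Φ w :=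
  (analyticAt_const.mul ((analyticAt_const.sub analyticAt_id).clog
    (Or.inl (by simpa using h)))).sub ((analyticAt_const.add analyticAt_id).div
      (analyticAt_const.sub analyticAt_id) (n1 h))

lemma Fe {w : ℂ} (h : w.re < 1) : F w = (1 - w) ^ 2 * S w := by
  rw [F, Φ, sub_eq_add_neg, Complex.exp_add, ← Nat.cast_ofNat, Complex.exp_nat_mul,
    Complex.exp_log (n1 h), S]

lemma reH (w : ℂ) : ((1 + w) / (1 - w)).re = (1 - ‖w‖ ^ 2) / ‖1 - w‖ ^ 2 := by
  have := congrFun (poissonKernel_eq_re_herglotzRieszKernel (c := 0) (w := w)) 1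
  simpa [poissonKernel, herglotzRieszKernel] using this.symm

lemma Sle {w : ℂ} (h : ‖w‖ ≤ 1) : ‖S w‖ ≤ 1 := by
  rw [S, Complex.norm_exp, neg_re, reH, Real.exp_le_one_iff, neg_nonpos]
  exact div_nonneg (by nlinarith [norm_nonneg w]) (sq_nonneg _)

lemma lt1 {w : ℂ} (h : ‖w‖ < 1) : w.re < 1 := (re_le_norm w).trans_lt h

lemma re1 {w : ℂ} (h : ‖w‖ ≤ 1) (h1 : w ≠ 1) : w.re < 1 :=
  lt_of_le_of_ne ((re_le_norm _).trans h) fun e => h1 (by
    have a := Complex.sq_norm w
    rw [normSq_apply, e] at a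
    have : w.im = 0 := by nlinarith [norm_nonneg w]
    exact Complex.ext (by simpa using e) (by simpa using this))

lemma Fd : DifferentiableOn ℂ F (ball 0 1) := fun _ hw =>
  (Φa (lt1 (mem_ball_zero_iff.1 hw))).cexp.differentiableAt.differentiableWithinAt

lemma dF {w : ℂ} (h : ‖w‖ < 1) : ‖deriv F w‖ ≤ 6 := by
  have e : F =ᶠ[𝓝 w] fun w => (1 - w) ^ 2 * S w := by
    filter_upwards [(isOpen_lt continuous_re continuous_const).mem_nhds (lt1 h)] with v hv
    exact Fe hv
  have h1 := (hasDerivAt_id w).const_sub 1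
  have h2 := ((h1.pow 2).mul ((((hasDerivAt_id w).const_add 1).div h1
    (n1 (lt1 h))).neg.cexp)).congr_deriv (g' := -(2 * (2 - w) * S w)) (by
      have := n1 (lt1 h)
      simp [S]
      field_simp
      ring)
  rw [e.deriv_eq, show deriv (fun w => (1 - w) ^ 2 * S w) w = _ from h2.deriv, norm_neg, norm_mul,
    norm_mul]
  have a := norm_sub_le (2 : ℂ) w
  have b := Sle h.le
  rw [Complex.norm_ofNat] at a ⊢
  nlinarith [norm_nonneg (S w), norm_nonneg (2 - w)]

lemma csum : Summable fun n : ℕ => ((n : ℝ) + 1) ^ 2 * ‖co F n‖ ^ 2 := by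
  have h := (sq_sum (Fd.deriv isOpen_ball) fun z hz => dF (mem_ball_zero_iff.1 hz)).mul_left 4
  rw [← summable_nat_add_iff 1]
  refine h.of_nonneg_of_le (fun _ => by positivity) fun n => ?_
  rw [co_deriv, norm_mul, mul_pow, ← mul_assoc, show (n + 1 : ℂ) = ((n + 1 : ℕ) : ℂ) by simp,
    Complex.norm_natCast]
  refine mul_le_mul_of_nonneg_right ?_ (sq_nonneg _)
  push_cast
  nlinarith [n.cast_nonneg (α := ℝ)]

noncomputable def a (k : ℕ × ℕ) : ℂ := co F (k.1 + k.2) * ((k.1 + k.2).choose k.1 / 2 ^ (k.1 + k.2))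

lemma grpa {R : Type} [Field R] [CharZero R] (c x y : R) (n : ℕ) :
    ∑ k ∈ antidiagonal n, c * (n.choose k.1 / 2 ^ n) * x ^ k.1 * y ^ k.2 =
      c * ((x + y) / 2) ^ n := by
  rw [div_pow, (Commute.all x y).add_pow', Finset.sum_div, Finset.mul_sum]
  exact Finset.sum_congr rfl fun k _ => by rw [nsmul_eq_mul]; ring

lemma na (k : ℕ × ℕ) : ‖a k‖ = ‖co F (k.1 + k.2)‖ * ((k.1 + k.2).choose k.1 / 2 ^ (k.1 + k.2)) := by
  simp [a]

lemma arep {x y : ℂ} (hx : ‖x‖ < 1) (hy : ‖y‖ < 1) :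
    HasSum (fun k : ℕ × ℕ => a k * x ^ k.1 * y ^ k.2) (F ((x + y) / 2)) := by
  have s1 := (co_sum Fd (w := (((‖x‖ + ‖y‖) / 2 : ℝ) : ℂ)) (by
    rw [norm_real, Real.norm_of_nonneg (by positivity)]; linarith)).summable.norm
  have s2 : Summable fun k : ℕ × ℕ => a k * x ^ k.1 * y ^ k.2 :=
    .of_norm (ungrp (fun _ => norm_nonneg _) s1 fun n => le_of_eq (by
      rw [norm_mul, norm_pow, norm_real, Real.norm_of_nonneg (by positivity), ← grpa]
      refine Finset.sum_congr rfl fun k hk => ?_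
      rw [norm_mul, norm_mul, na, mem_antidiagonal.1 hk, norm_pow, norm_pow]))
  have h1 := grp s2.hasSum
  have h2 := co_sum Fd (w := (x + y) / 2) (by
    rw [norm_div, Complex.norm_ofNat]; linarith [norm_add_le x y])
  rw [← h1.unique (hcongr h2 fun n => ?_)]
  · exact s2.hasSum
  · rw [← grpa]
    exact Finset.sum_congr rfl fun k hk => by rw [a, mem_antidiagonal.1 hk]

lemma asum : Summable fun k : ℕ × ℕ => ((k.1 : ℝ) + 1) * (k.2 + 1) * ‖a k‖ ^ 2 := by
  refine ungrp (fun _ => by positivity) csum fun n => ?_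
  have g := grpa (((n : ℝ) + 1) ^ 2 * ‖co F n‖ ^ 2) 1 1 n
  simp only [one_pow, mul_one, add_self_div_two] at g
  rw [← g]
  refine Finset.sum_le_sum fun k hk => ?_
  have e := mem_antidiagonal.1 hk
  have e' : (k.1 : ℝ) + k.2 = n := by exact_mod_cast e
  have b : (n.choose k.1 : ℝ) / 2 ^ n ≤ 1 :=
    (div_le_one (by positivity)).2 (by exact_mod_cast Nat.choose_le_two_pow n k.1)
  have b0 : (0 : ℝ) ≤ n.choose k.1 / 2 ^ n := by positivity
  rw [na, e, mul_pow, mul_assoc (((n : ℝ) + 1) ^ 2)]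
  refine mul_le_mul (by
    have := Nat.cast_nonneg (α := ℝ) k.1
    have := Nat.cast_nonneg (α := ℝ) k.2
    nlinarith [sq_nonneg ((k.1 : ℝ) - k.2)]) (mul_le_mul_of_nonneg_left (by nlinarith) (sq_nonneg _))
    (by positivity) (by positivity)

lemma noncyc {q : ℂ → ℂ} (hq : Differentiable ℂ q) {b : ℕ × ℕ → ℂ} {s : ℝ}
    (h1 : ∀ w, ‖w‖ < 1 → HasSum (fun k : ℕ × ℕ => b k * w ^ k.1 * w ^ k.2) (q w * F w - 1))
    (h2 : HasSum (fun k : ℕ × ℕ => ((k.1 : ℝ) + 1) * (k.2 + 1) * ‖b k‖ ^ 2) s) : 1 / 10 ≤ s := by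
  let d : ℕ → ℂ := fun n => ∑ k ∈ antidiagonal n, b k
  have hd : ∀ w, ‖w‖ < 1 → HasSum (fun n => d n * w ^ n) (q w * F w - 1) := fun w hw => by
    refine hcongr (grp (h1 w hw)) fun n => ?_
    rw [Finset.sum_mul]
    exact Finset.sum_congr rfl fun k hk => by rw [mul_assoc, ← pow_add, mem_antidiagonal.1 hk]
  have hs : ∀ N, ∑ n ∈ Finset.range N, ‖d n‖ ^ 2 ≤ s := fun N => by
    refine (Finset.sum_le_sum fun n _ => ?_).trans (sum_le_hasSum _
      (fun n _ => Finset.sum_nonneg fun _ _ => by positivity) (grp h2))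
    refine (pow_le_pow_left₀ (norm_nonneg _) (norm_sum_le _ _) 2).trans
      (sq_sum_le_card_mul_sum_sq.trans ?_)
    rw [Finset.Nat.card_antidiagonal, Finset.mul_sum]
    refine Finset.sum_le_sum fun k hk => mul_le_mul_of_nonneg_right ?_ (sq_nonneg _)
    rw [← mem_antidiagonal.1 hk]
    push_cast
    nlinarith [mul_nonneg (Nat.cast_nonneg (α := ℝ) k.1) (Nat.cast_nonneg (α := ℝ) k.2)]
  let h : ℂ → ℂ := fun w => q w * (1 - w) ^ 2
  have hh : Differentiable ℂ h := by fun_prop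
  obtain ⟨M, hM⟩ := (isCompact_closedBall (0 : ℂ) 1).exists_bound_of_continuousOn
    hh.continuous.continuousOn
  have cF : ∀ r ∈ Ioo (0 : ℝ) 1, Continuous fun θ => q (circleMap 0 r θ) * F (circleMap 0 r θ) :=
    fun r hr => (hq.continuous.comp (continuous_circleMap 0 r)).mul (Fd.continuousOn.comp_continuous
      (continuous_circleMap 0 r) fun t => by simpa [abs_of_pos hr.1] using hr.2)
  have t := intervalIntegral.tendsto_integral_filter_of_dominated_convergence (μ := volume)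
    (a := 0) (b := 2 * π) (l := 𝓝[<] 1) (F := fun (r : ℝ) (θ : ℝ) =>
      ‖q (circleMap 0 r θ) * F (circleMap 0 r θ)‖)
    (f := fun θ => ‖h (circleMap 0 1 θ)‖) (fun _ => M)
    (by
      filter_upwards [Ioo_mem_nhdsLT (zero_lt_one' ℝ)] with r hr
      exact (cF r hr).norm.aestronglyMeasurable)
    (by
      filter_upwards [Ioo_mem_nhdsLT (zero_lt_one' ℝ)] with r hr
      refine .of_forall fun θ _ => ?_
      have k : ‖circleMap 0 r θ‖ < 1 := by simpa [abs_of_pos hr.1] using hr.2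
      rw [norm_norm, Fe (lt1 k), ← mul_assoc, norm_mul]
      exact (mul_le_of_le_one_right (norm_nonneg _) (Sle k.le)).trans
        (hM _ (mem_closedBall_zero_iff.2 k.le)))
    intervalIntegrable_const (by
      filter_upwards [((countable_singleton (1 : ℂ)).preimage_circleMap 0
        one_ne_zero).ae_notMem volume] with θ hθ _
      have k : ‖circleMap 0 1 θ‖ = 1 := by simp
      have k1 : (circleMap 0 1 θ).re < 1 := re1 k.le hθ
      have c : ContinuousAt (fun w => ‖q w * F w‖) (circleMap 0 1 θ) :=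
        (hq.continuous.continuousAt.mul (Φa k1).cexp.continuousAt).norm
      have e : ‖h (circleMap 0 1 θ)‖ = ‖q (circleMap 0 1 θ) * F (circleMap 0 1 θ)‖ := by
        rw [Fe k1, ← mul_assoc, norm_mul _ (S _), S, Complex.norm_exp, neg_re, reH, k]
        simp [h]
      rw [e]
      exact (c.tendsto.comp ((Continuous.tendsto (f := fun r : ℝ => circleMap 0 r θ)
        (by unfold circleMap; fun_prop) 1))).mono_left nhdsWithin_le_nhds)
  have up : ∫ θ in (0 : ℝ)..2 * π, ‖h (circleMap 0 1 θ)‖ ≤ 2 * π * (5 / 4 + s) := by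
    refine le_of_tendsto t ?_
    filter_upwards [Ioo_mem_nhdsLT (zero_lt_one' ℝ)] with r hr
    have c2 : Continuous fun θ => ‖q (circleMap 0 r θ) * F (circleMap 0 r θ) - 1‖ ^ 2 :=
      ((cF r hr).sub continuous_const).norm.pow 2
    refine (intervalIntegral.integral_mono_on (g := fun θ =>
      5 / 4 + ‖q (circleMap 0 r θ) * F (circleMap 0 r θ) - 1‖ ^ 2) two_pi_pos.le
      ((cF r hr).norm.intervalIntegrable _ _) ((continuous_const.add c2).intervalIntegrable _ _)
      fun θ _ => ?_).trans ?_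
    · have := norm_sub_norm_le (q (circleMap 0 r θ) * F (circleMap 0 r θ)) 1
      rw [norm_one] at this
      nlinarith [sq_nonneg (‖q (circleMap 0 r θ) * F (circleMap 0 r θ) - 1‖ - 1 / 2)]
    · rw [intervalIntegral.integral_add intervalIntegrable_const (c2.intervalIntegrable _ _)]
      have := l2up (g := fun w => q w * F w - 1) hd hs hr.1 hr.2
      simp only [intervalIntegral.integral_const, smul_eq_mul]
      linarith
  have lo : ‖h 0‖ ≤ 5 / 4 + s := by
    rw [← (hh.diffContOnCl (s := ball 0 |1|)).circleAverage, Real.circleAverage_def, norm_smul,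
      Real.norm_of_nonneg (by positivity), inv_mul_le_iff₀ two_pi_pos]
    exact (intervalIntegral.norm_integral_le_integral_norm two_pi_pos.le).trans up
  have z1 : q 0 * F 0 - 1 = d 0 := by
    simpa using (hd 0 (by simp)).unique (hasSum_single 0 fun n hn => by simp [hn])
  have z2 := hs 1
  have z3 : ‖q 0 * F 0‖ = ‖h 0‖ * Real.exp (-1) := by
    simp [Fe (w := 0) (by simp), S, h, Complex.norm_exp]
  have z4 := norm_sub_norm_le (1 : ℂ) (q 0 * F 0)
  have z5 := Real.exp_neg_one_lt_d9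
  rw [norm_sub_rev, z1, z3, norm_one] at z4
  simp only [Finset.range_one, Finset.sum_singleton] at z2
  nlinarith [sq_nonneg (‖d 0‖ - 1 / 2), norm_nonneg (h 0)]

end Pool.Agent.H.MP_dad4ef_an
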