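import Mathlib
import Pool.Agent.H.MP_dad4ef_an.B

namespace Pool.Agent.H.MP_dad4ef_an

open Filter Topology Metric Set Real Complex MeasureTheory

lemma hre {x y : ℂ} (hx : ‖x‖ ≤ 1) (hy : ‖y‖ ≤ 1) (h : x ≠ 1 ∨ y ≠ 1) : ((x + y) / 2).re < 1 := by
  have a := (re_le_norm x).trans hx
  have b := (re_le_norm y).trans hy
  have : ((x + y) / 2).re = (x.re + y.re) / 2 := by simp
  rcases h with h | h
  · linarith [re1 hx h]
  · linarith [re1 hy h]

lemma rad {x y : ℂ} (h : ((x + y) / 2).re < 1) :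
    Tendsto (fun r : ℝ => F ((r * x + r * y) / 2)) (𝓝[<] 1) (𝓝 (F ((x + y) / 2))) := by
  have : Tendsto (fun r : ℝ => (r * x + r * y) / 2) (𝓝 1) (𝓝 ((x + y) / 2)) := by
    simpa using (Continuous.tendsto (f := fun r : ℝ => (r * x + r * y) / 2) (by fun_prop) 1)
  exact ((Φa h).cexp.continuousAt.tendsto.comp this).mono_left nhdsWithin_le_nhds

lemma Pc {z : ℂ} (hz : ‖z‖ < 1) : Continuous fun t => poissonKernel 0 z (circleMap 0 1 t) := by
  unfold poissonKernel
  refine Continuous.div (by fun_prop) (by fun_prop) fun t => pow_ne_zero 2 (norm_ne_zero_iff.2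
    fun e => ?_)
  simp only [sub_zero, sub_eq_zero] at e
  simp [← e] at hz

lemma P0 {z : ℂ} (hz : ‖z‖ < 1) (t : ℝ) : 0 ≤ poissonKernel 0 z (circleMap 0 1 t) :=
  div_nonneg (by simp; nlinarith [norm_nonneg z]) (sq_nonneg _)

lemma poi {Ψ : ℂ → ℂ} (h : ∀ w, ‖w‖ ≤ 1 → AnalyticAt ℂ Ψ w) {z : ℂ} (hz : ‖z‖ < 1) :
    (Continuous fun t => (Ψ (circleMap 0 1 t)).re * poissonKernel 0 z (circleMap 0 1 t)) ∧
    ∫ t in Ioc 0 (2 * π), (Ψ (circleMap 0 1 t)).re * poissonKernel 0 z (circleMap 0 1 t) =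
      2 * π * (Ψ z).re := by
  refine ⟨(continuous_re.comp (continuous_iff_continuousAt.2 fun t => ((h _ (by
    simp)).continuousAt.comp (continuous_circleMap 0 1).continuousAt))).mul (Pc hz), ?_⟩
  have := InnerProductSpace.HarmonicOnNhd.circleAverage_poissonKernel_smul
    (f := fun w => (Ψ w).re) (c := 0) (R := 1) (w := z)
    (fun w hw => (h w (by simpa using hw)).harmonicAt_re) (by simpa using hz)
  rw [← this, Real.circleAverage_def, smul_eq_mul, ← mul_assoc, mul_inv_cancel₀ two_pi_pos.ne',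
    one_mul, intervalIntegral.integral_of_le two_pi_pos.le]
  simp [mul_comm]

lemma Φle {w : ℂ} (h : ‖w‖ ≤ 1) : (Φ w).re ≤ 2 := by
  have a := norm_sub_le 1 w
  have b : 0 ≤ ((1 + w) / (1 - w)).re := by
    rw [reH]; exact div_nonneg (by nlinarith [norm_nonneg w]) (sq_nonneg _)
  have c : Real.log ‖1 - w‖ ≤ 1 := by
    rw [norm_one] at a
    rcases (norm_nonneg (1 - w)).eq_or_lt with e | e
    · simp [← e]
    · linarith [Real.log_le_sub_one_of_pos e]
  have : (Φ w).re = 2 * Real.log ‖1 - w‖ - ((1 + w) / (1 - w)).re := by simp [Φ, log_re]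
  linarith

lemma ae1 : ∀ᵐ t : ℝ, circleMap 0 1 t ≠ 1 :=
  ((countable_singleton (1 : ℂ)).preimage_circleMap 0 one_ne_zero).ae_notMem volume

lemma outer {x y : ℂ} (hx : ‖x‖ < 1) (hy : ‖y‖ < 1) :
    Integrable (fun θ : ℝ × ℝ => (Φ ((circleMap 0 1 θ.1 + circleMap 0 1 θ.2) / 2)).re *
      (poissonKernel 0 x (circleMap 0 1 θ.1) * poissonKernel 0 y (circleMap 0 1 θ.2)))
      ((volume.restrict (Ioc 0 (2 * π))).prod (volume.restrict (Ioc 0 (2 * π)))) ∧
    ∫ θ : ℝ × ℝ, (Φ ((circleMap 0 1 θ.1 + circleMap 0 1 θ.2) / 2)).re *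
      (poissonKernel 0 x (circleMap 0 1 θ.1) * poissonKernel 0 y (circleMap 0 1 θ.2))
      ∂((volume.restrict (Ioc 0 (2 * π))).prod (volume.restrict (Ioc 0 (2 * π)))) =
      (2 * π) ^ 2 * (Φ ((x + y) / 2)).re := by
  have A1 : ∀ t : ℝ, circleMap 0 1 t ≠ 1 → ∀ w : ℂ, ‖w‖ ≤ 1 →
      AnalyticAt ℂ (fun w => Φ ((w + circleMap 0 1 t) / 2)) w := fun t ht w hw =>
    (Φa (hre hw (by simp) (Or.inr ht))).comp (f := fun w => (w + circleMap 0 1 t) / 2)
      (by fun_prop)
  have A2 : ∀ w : ℂ, ‖w‖ ≤ 1 → AnalyticAt ℂ (fun w => Φ ((x + w) / 2)) w := fun w hw =>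
    (Φa (hre hx.le hw (Or.inl fun e => by simp [e] at hx))).comp (f := fun w => (x + w) / 2)
      (by fun_prop)
  have px := (Pc hx).measurable
  have py := (Pc hy).measurable
  have i1 : Integrable (fun θ : ℝ × ℝ => (2 - Φ ((circleMap 0 1 θ.1 + circleMap 0 1 θ.2) / 2)).re *
      (poissonKernel 0 x (circleMap 0 1 θ.1) * poissonKernel 0 y (circleMap 0 1 θ.2)))
      ((volume.restrict (Ioc 0 (2 * π))).prod (volume.restrict (Ioc 0 (2 * π)))) := by
    have m : Measurable fun θ : ℝ × ℝ =>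
        (2 - Φ ((circleMap 0 1 θ.1 + circleMap 0 1 θ.2) / 2)).re *
        (poissonKernel 0 x (circleMap 0 1 θ.1) * poissonKernel 0 y (circleMap 0 1 θ.2)) :=
      Measurable.mul (by unfold Φ; fun_prop) ((px.comp measurable_fst).mul (py.comp measurable_snd))
    refine (integrable_prod_iff' m.aestronglyMeasurable).2 ⟨?_, ?_⟩
    · filter_upwards [ae_restrict_of_ae ae1] with t ht
      simp only [← mul_assoc]
      exact ((poi (fun w hw => analyticAt_const.sub (A1 t ht w hw)) hx).1.mul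
        continuous_const).integrableOn_Ioc
    · refine (((poi (fun w hw => (analyticAt_const (v := 2)).sub (A2 w hw)) hy).1.const_mul
        (2 * π)).integrableOn_Ioc (a := 0) (b := 2 * π) (μ := volume)).congr ?_
      filter_upwards [ae_restrict_of_ae ae1] with t ht
      have k : ∀ u, 0 ≤ (2 - Φ ((circleMap 0 1 u + circleMap 0 1 t) / 2)).re *
          (poissonKernel 0 x (circleMap 0 1 u) * poissonKernel 0 y (circleMap 0 1 t)) :=
        fun u => mul_nonneg (by
          rw [sub_re, sub_nonneg]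
          refine (Φle ?_).trans_eq (by simp)
          rw [norm_div, Complex.norm_ofNat]
          linarith [norm_add_le (circleMap 0 1 u) (circleMap 0 1 t), norm_circleMap_zero 1 u,
            norm_circleMap_zero 1 t, abs_one (α := ℝ)]) (mul_nonneg (P0 hx _) (P0 hy _))
      simp only [Real.norm_of_nonneg (k _)]
      simp only [← mul_assoc]
      rw [integral_mul_const]
      congr 1
      exact (poi (fun w hw => analyticAt_const.sub (A1 t ht w hw)) hx).2.symm
  have i2 := ((((Pc hx).integrableOn_Ioc (a := 0) (b := 2 * π) (μ := volume)).mul_prod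
    ((Pc hy).integrableOn_Ioc (a := 0) (b := 2 * π) (μ := volume))).const_mul 2).sub i1
  have i3 := i2.congr (g := fun θ : ℝ × ℝ =>
      (Φ ((circleMap 0 1 θ.1 + circleMap 0 1 θ.2) / 2)).re *
      (poissonKernel 0 x (circleMap 0 1 θ.1) * poissonKernel 0 y (circleMap 0 1 θ.2)))
    (.of_forall fun θ => by simp; ring)
  refine ⟨i3, (integral_prod_symm _ i3).trans ?_⟩
  rw [sq, mul_assoc, ← (poi A2 hy).2, ← integral_const_mul]
  refine integral_congr_ae ?_
  filter_upwards [ae_restrict_of_ae ae1] with t ht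
  simp only [← mul_assoc]
  rw [integral_mul_const, (poi (A1 t ht) hx).2]

end Pool.Agent.H.MP_dad4ef_an
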